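import Pool.Agent.helper87.PM.Main

/-!
# MP_bf63dc_nt: every fixed `c` prime to `6`: every large prime `b`, and every set of pairwise coprime integers

Let `c` be a fixed nonzero integer prime to `6`, for instance `c = 1` or `c = -1`.

(1) EVERY b. There is `C` such that for every `b` without prime factors `≤ C`, for instance every prime `b > C`, there are `a, v ≤ C` such
that `a p - v b q = c` has infinitely many solutions in primes `p, q`.

(2) EVERY SET. In every large finite set of pairwise coprime integers without small prime factors almost a third of the pairs `y < y'`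
satisfy `u y' p - v y q = c` for infinitely many `p, q`, with factors `u, v` below an absolute bound, and almost a third `u y p - v y' q = c`.

(3) EVERY INFINITE SET of pairwise coprime integers prime to `c` contains an infinite subset, all of whose pairs are solvable, in both
orders, with the same factors `u, v` and `u', v'`.

PROOF. Choose natural numbers `h_1 < ... < h_k` such that the part of `h_j - h_i` prime to `c` divides `h_i`, in four clusters separated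
modulo the small primes of `c`. For pairwise coprime `A_1, ..., A_k` the forms `(h_i n + c)/A_i`, restricted to the classes in which
they are integral, are admissible, and two of them in different clusters give a solution of `u A_j p - v A_i q = c` with `u, v ≤ max h`. By
the theorem on two primes in four clusters (a theorem of the kind of Maynard and Tao, with the sieve of Rosser and Chen's switching
principle, proved in the helper files) two such forms are simultaneously prime infinitely often. So every sequence of `k` pairwise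
coprime integers prime to `c K!` contains a related pair; (2) is the theorem of Erdos and Stone, (3) is Ramsey's theorem. (1): otherwise one
could choose a sequence of `k` such integers without a related pair, one after the other.
-/

set_option autoImplicit false

namespace Pool.Agent.helper87.Reserve.EveryLargeB

open Finset

/-- The conditions of the question on `a, b, c`. -/
def Admissible (a b : ℕ) (c : ℤ) : Prop :=
  1 ≤ a ∧ 1 ≤ b ∧ c ≠ 0 ∧ IsCoprime (a : ℤ) b ∧ IsCoprime (a : ℤ) c ∧ IsCoprime (b : ℤ) c ∧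
    ¬ (Odd (a : ℤ) ∧ Odd (b : ℤ) ∧ Odd c)

/-- `(a, b, c)` is as in the question and `a p - b q = c` has infinitely many solutions in primes `p`, `q`. -/
def TrueCase (a b : ℕ) (c : ℤ) : Prop :=
  Admissible a b c ∧ {pq : ℕ × ℕ | pq.1.Prime ∧ pq.2.Prime ∧ (a : ℤ) * pq.1 - b * pq.2 = c}.Infinite

/-- All prime factors of `b` are greater than `K`. -/
def Rough (K b : ℕ) : Prop := ∀ ℓ : ℕ, ℓ.Prime → ℓ ∣ b → K < ℓ

/-- Every `b` without small prime factors has a bounded multiple `v b`, and a bounded `a`, with `(a, v b, c)` true. -/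
def EveryB (c : ℤ) : Prop :=
  ∀ m : ℕ, 1 ≤ m → IsCoprime (m : ℤ) c → ∃ C : ℕ, ∀ b : ℕ, 1 ≤ b → Rough C b →
    (∃ a v : ℕ, a ≤ C ∧ v ≤ C ∧ m ∣ v ∧ TrueCase a (v * b) c) ∧
    ∃ a v : ℕ, a ≤ C ∧ v ≤ C ∧ m ∣ a ∧ TrueCase a (v * b) c

/-- `(u y', v y, c)` is true for some `u, v ≤ K`. -/
def Linked (c : ℤ) (K y y' : ℕ) : Prop := ∃ u v : ℕ, u ≤ K ∧ v ≤ K ∧ TrueCase (u * y') (v * y) c

/-- In every large finite set of pairwise coprime integers without small prime factors a third of the pairs are linked, for each of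
the two orders. -/
def EverySet (c : ℤ) : Prop :=
  ∃ K : ℕ, ∀ ε : ℝ, 0 < ε → ∃ n₀ : ℕ, ∀ Y : Set ℕ, Y.Finite → n₀ ≤ Y.ncard → (∀ y ∈ Y, 1 ≤ y ∧ Rough K y) →
    Y.Pairwise Nat.Coprime →
      (1 / 3 - ε) * ((Y.ncard : ℝ) ^ 2 / 2) ≤
        ({p : ℕ × ℕ | p.1 ∈ Y ∧ p.2 ∈ Y ∧ p.1 < p.2 ∧ Linked c K p.1 p.2}.ncard : ℝ) ∧
      (1 / 3 - ε) * ((Y.ncard : ℝ) ^ 2 / 2) ≤
        ({p : ℕ × ℕ | p.1 ∈ Y ∧ p.2 ∈ Y ∧ p.1 < p.2 ∧ Linked c K p.2 p.1}.ncard : ℝ)

/-- Every infinite set of pairwise coprime integers prime to `c` contains an infinite subset all of whose pairs are solvable, in both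
orders, with the same bounded factors. -/
def EveryInfiniteSet (c : ℤ) : Prop :=
  ∃ K : ℕ, ∀ X : Set ℕ, X.Infinite → (∀ y ∈ X, 1 ≤ y ∧ IsCoprime (y : ℤ) c) → X.Pairwise Nat.Coprime →
    ∃ Y ⊆ X, Y.Infinite ∧ ∃ u v u' v' : ℕ, u ≤ K ∧ v ≤ K ∧ u' ≤ K ∧ v' ≤ K ∧
      ∀ y ∈ Y, ∀ y' ∈ Y, y < y' → TrueCase (u * y') (v * y) c ∧ TrueCase (u' * y) (v' * y') c

/-! ## Proof -/

lemma true_iff {a b : ℕ} {c : ℤ} : TrueCase a b c ↔ Pool.Agent.helper85.FC.TrueCase a b c := by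
  unfold TrueCase Admissible Pool.Agent.helper85.FC.TrueCase
  rw [Nat.isCoprime_iff_coprime]
  constructor
  · rintro ⟨⟨h1, h2, h3, h4, h5, h6, h7⟩, h8⟩
    exact ⟨h1, h2, h3, h4, h5, h6, fun h => h7 ⟨by exact_mod_cast h.1, by exact_mod_cast h.2.1, h.2.2⟩, h8⟩
  · rintro ⟨h1, h2, h3, h4, h5, h6, h7, h8⟩
    exact ⟨⟨h1, h2, h3, h4, h5, h6, fun h => h7 ⟨by exact_mod_cast h.1, by exact_mod_cast h.2.1, h.2.2⟩⟩, h8⟩

lemma linked_of {c : ℤ} {m K x y : ℕ} (h : Pool.Agent.helper87.PM.Lk c m K x y) : Linked c K x y := by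
  obtain ⟨u, v, -, hu, -, hv, -, hT⟩ := h
  exact ⟨u, v, hu, hv, true_iff.2 hT⟩

lemma everyB {c : ℤ} (hc : c ≠ 0) (h6 : IsCoprime c 6) : EveryB c := by
  intro m hm hmc
  obtain ⟨C, hC⟩ := Pool.Agent.helper87.PM.every_b hc h6 hm hmc
  refine ⟨C, fun b hb hbC => ?_⟩
  obtain ⟨⟨a, v, h1, h2, h3, h4⟩, a', v', h1', h2', h3', h4'⟩ := hC b hb hbC
  exact ⟨⟨a, v, h1, h2, h3, true_iff.2 h4⟩, a', v', h1', h2', h3', true_iff.2 h4'⟩

lemma everySet {c : ℤ} (hc : c ≠ 0) (h6 : IsCoprime c 6) : EverySet c := by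
  classical
  obtain ⟨K, hK⟩ := Pool.Agent.helper87.PM.every_set hc h6 (m := 1) one_pos (by simpa using isCoprime_one_left)
  refine ⟨K, fun ε hε => ?_⟩
  obtain ⟨n₀, hn₀⟩ := hK ε hε
  refine ⟨n₀, fun Y hYf hY1 hY2 hY3 => ?_⟩
  obtain ⟨Z, rfl⟩ : ∃ Z : Finset ℕ, Y = (Z : Set ℕ) := ⟨hYf.toFinset, by simp⟩
  rw [Set.ncard_coe_finset] at hY1 ⊢
  obtain ⟨h1, h2⟩ := hn₀ Z hY1 (fun y hy => hY2 y hy) (fun y hy y' hy' hne => hY3 hy hy' hne)
  have key : ∀ Q : ℕ → ℕ → Prop, ∀ R : ℕ → ℕ → Prop, (∀ x y, R x y → Q x y) →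
      (#{p ∈ Z ×ˢ Z | p.1 < p.2 ∧ R p.1 p.2} : ℝ) ≤
        ({p : ℕ × ℕ | p.1 ∈ (Z : Set ℕ) ∧ p.2 ∈ (Z : Set ℕ) ∧ p.1 < p.2 ∧ Q p.1 p.2}.ncard : ℝ) := by
    intro Q R hQR
    rw [← Set.ncard_coe_finset]
    have hsub : (({p ∈ Z ×ˢ Z | p.1 < p.2 ∧ R p.1 p.2} : Finset (ℕ × ℕ)) : Set (ℕ × ℕ)) ⊆
        {p : ℕ × ℕ | p.1 ∈ (Z : Set ℕ) ∧ p.2 ∈ (Z : Set ℕ) ∧ p.1 < p.2 ∧ Q p.1 p.2} := by
      intro p hp
      rw [Finset.mem_coe, Finset.mem_filter, Finset.mem_product] at hp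
      exact ⟨hp.1.1, hp.1.2, hp.2.1, hQR _ _ hp.2.2⟩
    have hfin : {p : ℕ × ℕ | p.1 ∈ (Z : Set ℕ) ∧ p.2 ∈ (Z : Set ℕ) ∧ p.1 < p.2 ∧ Q p.1 p.2}.Finite := by
      refine (Finset.finite_toSet (Z ×ˢ Z)).subset ?_
      rintro p ⟨h1, h2, -⟩
      rw [Finset.mem_coe, Finset.mem_product]
      exact ⟨h1, h2⟩
    exact_mod_cast Set.ncard_le_ncard hsub hfin
  refine ⟨h1.trans ?_, h2.trans ?_⟩
  · exact key (fun x y => Linked c K x y) (fun x y => Pool.Agent.helper87.PM.Lk c 1 K x y) fun x y h => linked_of h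
  · exact key (fun x y => Linked c K y x) (fun x y => Pool.Agent.helper87.PM.Lk c 1 K y x) fun x y h => linked_of h

lemma everyInfinite {c : ℤ} (hc : c ≠ 0) (h6 : IsCoprime c 6) : EveryInfiniteSet c := by
  obtain ⟨K, hK⟩ := Pool.Agent.helper87.PM.every_infinite hc h6 (m := 1) one_pos (by simpa using isCoprime_one_left)
  refine ⟨K, fun X hX hX1 hX2 => ?_⟩
  obtain ⟨Y, hYX, hY, u, v, u', v', h1, h2, h3, h4, -, -, h5⟩ := hK X hX hX1
    (fun y hy y' hy' hne => hX2 hy hy' hne)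
  exact ⟨Y, hYX, hY, u, v, u', v', h1, h2, h3, h4, fun y hy y' hy' hlt =>
    ⟨true_iff.2 (h5 y hy y' hy' hlt).1, true_iff.2 (h5 y hy y' hy' hlt).2⟩⟩

/-- MAIN THEOREM. Let `c` be a nonzero integer prime to `6`, for instance `c = 1` or `c = -1`. -/
theorem result (c : ℤ) (hc : c ≠ 0) (h6 : IsCoprime c 6) :
    EveryB c ∧ EverySet c ∧ EveryInfiniteSet c :=
  ⟨everyB hc h6, everySet hc h6, everyInfinite hc h6⟩

end Pool.Agent.helper87.Reserve.EveryLargeB
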